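import Pool.Agent.Helper10_QFP.Main

set_option autoImplicit false

universe u

namespace Pool.Agent.Results.MP_34f229_ag.FermatHeightTwo

open Pool.Agent.Helper10_QFP MvPolynomial

/-- Let `p` be a prime, `n ≥ 3`, `p = a n + 2` with `a ≥ 1`, and `1 < d < n`.  Over every perfect
field `k` of characteristic `p` the ring `k[x_1, ..., x_n]/(x_1^d + ... + x_n^d)` is
`2`-quasi-`F`-pure, hence quasi-`F`-pure. -/
theorem result (p : ℕ) [Fact p.Prime] (k : Type u) [Field k] [CharP k p] [PerfectRing k p]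
    (n a d : ℕ) (hn : 3 ≤ n) (ha : 1 ≤ a) (hpn : p = a * n + 2) (hd1 : 1 < d) (hdn : d < n) :
    IsQuasiFPureOf p 2
      (MvPolynomial (Fin n) k ⧸ Ideal.span {∑ i : Fin n, (X i : MvPolynomial (Fin n) k) ^ d}) ∧
    IsQuasiFPure p
      (MvPolynomial (Fin n) k ⧸ Ideal.span {∑ i : Fin n, (X i : MvPolynomial (Fin n) k) ^ d}) :=
  ⟨main p k n a d hn ha hpn (by omega) hdn,
    2, by norm_num, main p k n a d hn ha hpn (by omega) hdn⟩

end Pool.Agent.Results.MP_34f229_ag.FermatHeightTwo
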